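import Pool.Agent.MP_d171e3_nt.Mg.H48_Final

/-! Bounded degree independence of the logarithms for almost all tuples of primes. -/

namespace Pool.Agent.Results.MP_d171e3_nt.AlmostAllTuples

/-- For every `m` there is `C` such that for all `d ≥ 2`, `X ≥ 2` the number of `m`-tuples of
primes `≤ X` whose logarithms are a zero of some nonzero rational polynomial of total degree
`≤ d` is at most `C (log X)^m X^(-1/d^C) π(X)^m`. -/
theorem result (m : ℕ) : ∃ C : ℕ, ∀ d X : ℕ, 2 ≤ d → 2 ≤ X →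
    (({p : Fin m → ℕ | (∀ i, (p i).Prime ∧ p i ≤ X) ∧
        ∃ F : MvPolynomial (Fin m) ℚ, F ≠ 0 ∧ F.totalDegree ≤ d ∧
          MvPolynomial.aeval (fun i => Real.log (p i)) F = 0}.ncard : ℕ) : ℝ) ≤
      C * Real.log X ^ m * (X : ℝ) ^ (-(1 / (d : ℝ) ^ C)) * (Nat.primeCounting X : ℝ) ^ m :=
  Pool.Agent.MP_d171e3_nt.H48.almost_all_primes m

end Pool.Agent.Results.MP_d171e3_nt.AlmostAllTuples
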