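import Pool.Agent.MP_d171e3_nt.Mg.MA

namespace Pool.Agent.Results.MP_d171e3_nt.MultiAffine

open Pool.Agent.MP_d171e3_nt

/-- A multi-affinely independent finite set of logarithms stays independent after adding the
logarithm of any prime outside a set of explicitly bounded size. -/
theorem result (B : Submodule ℚ ℂ) [FiniteDimensional ℚ B] (P : Finset ℕ)
    (hP : MultiAffineIndep B P) :
    ∃ T : Finset ℕ, T.card ≤ 4 ^ P.card * Module.finrank ℚ B ^ 2 ∧
      ∀ q : ℕ, q.Prime → q ∉ T → MultiAffineIndep B (insert q P) :=
  MA_extend B P hP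

end Pool.Agent.Results.MP_d171e3_nt.MultiAffine
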