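import Pool.Agent.MP_d171e3_nt.Mg.Cor

namespace Pool.Agent.MP_d171e3_nt.Old.Quadratic

/-- The products `ln p * ln q` over a set of `m` primes span a rational vector space of dimension
at least `(m + 1) ^ 2 / 4`. -/
theorem result (S : Finset ℕ) (hS : ∀ q ∈ S, q.Prime) : (S.card + 1) ^ 2 / 4 ≤
    Module.finrank ℚ
      (Submodule.span ℚ {x : ℝ | ∃ p ∈ S, ∃ q ∈ S, x = Real.log p * Real.log q}) :=
  Pool.Agent.MP_d171e3_nt.quad_bound S hS

end Pool.Agent.MP_d171e3_nt.Old.Quadratic
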